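import Mathlib

/-! Exponential sums over families of vectors modulo a prime: differences and energies. -/

set_option autoImplicit false

namespace Pool.Agent.U234.DS

open Finset

variable {P : ℕ} [Fact P.Prime] {r : ℕ}

/-- The exponential sum of the family `v` at the frequency `h`. -/
noncomputable def F {ι : Type} (s : Finset ι) (v : ι → Fin r → ZMod P) (h : Fin r → ZMod P) : ℂ :=
  ∑ i ∈ s, (ZMod.stdAddChar (∑ j, h j * v i j) : ℂ)

/-- The number of the pairs of members of the family with the difference `d`. -/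
noncomputable def D {ι : Type} (s : Finset ι) (v : ι → Fin r → ZMod P) (d : Fin r → ZMod P) : ℕ :=
  ((s ×ˢ s).filter fun w => v w.1 - v w.2 = d).card

theorem char_sum {κ : Type} (s : Finset κ) (f : κ → ZMod P) :
    (ZMod.stdAddChar (∑ j ∈ s, f j) : ℂ) = ∏ j ∈ s, ZMod.stdAddChar (f j) := by
  classical
  induction s using Finset.induction_on with
  | empty => simp
  | insert a s ha ih => rw [sum_insert ha, prod_insert ha, AddChar.map_add_eq_mul, ih]

theorem conj_char (x : ZMod P) : (starRingEnd ℂ) (ZMod.stdAddChar x : ℂ) = ZMod.stdAddChar (-x) :=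
  (AddChar.map_neg_eq_conj _ _).symm

theorem norm_char (x : ZMod P) : ‖(ZMod.stdAddChar x : ℂ)‖ = 1 := by
  exact AddChar.norm_apply _ _

/-- orthogonality -/
theorem orth (x : Fin r → ZMod P) :
    ∑ h : Fin r → ZMod P, (ZMod.stdAddChar (∑ j, h j * x j) : ℂ) =
      if x = 0 then (P : ℂ) ^ r else 0 := by
  classical
  have h1 : ∑ h : Fin r → ZMod P, (ZMod.stdAddChar (∑ j, h j * x j) : ℂ) =
      ∏ j, ∑ a : ZMod P, (ZMod.stdAddChar (a * x j) : ℂ) := by
    rw [Finset.prod_univ_sum, Fintype.piFinset_univ]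
    exact sum_congr rfl fun h _ => char_sum _ _
  have h2 : ∀ j, ∑ a : ZMod P, (ZMod.stdAddChar (a * x j) : ℂ) = if x j = 0 then (P : ℂ) else 0 := by
    intro j
    have := AddChar.sum_mulShift (R' := ℂ) (ψ := ZMod.stdAddChar) (x j)
      (ZMod.isPrimitive_stdAddChar P)
    rw [this, ZMod.card]
    split_ifs <;> simp
  rw [h1]
  simp only [h2]
  split_ifs with hx
  · subst hx
    simp
  · obtain ⟨j, hj⟩ : ∃ j, x j ≠ 0 := by
      by_contra hcon
      push Not at hcon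
      exact hx (funext hcon)
    exact prod_eq_zero (mem_univ j) (by simp [hj])

theorem orth' {h : Fin r → ZMod P} (hh : h ≠ 0) :
    ∑ x : Fin r → ZMod P, (ZMod.stdAddChar (∑ j, h j * x j) : ℂ) = 0 := by
  have := orth h
  rw [if_neg hh] at this
  rw [← this]
  exact sum_congr rfl fun x _ => by simp only [mul_comm]

theorem F_mul_conj {ι : Type} (s : Finset ι) (v : ι → Fin r → ZMod P) (h : Fin r → ZMod P) :
    F s v h * (starRingEnd ℂ) (F s v h) =
      ∑ w ∈ s ×ˢ s, (ZMod.stdAddChar (∑ j, h j * (v w.1 - v w.2) j) : ℂ) := by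
  unfold F
  rw [map_sum, sum_mul_sum, ← sum_product']
  refine sum_congr rfl fun w _ => ?_
  rw [conj_char, ← AddChar.map_add_eq_mul]
  congr 1
  rw [← sub_eq_add_neg, ← sum_sub_distrib]
  exact sum_congr rfl fun j _ => by rw [Pi.sub_apply, mul_sub]

theorem norm_sq {ι : Type} (s : Finset ι) (v : ι → Fin r → ZMod P) (h : Fin r → ZMod P) :
    ((‖F s v h‖ ^ 2 : ℝ) : ℂ) =
      ∑ w ∈ s ×ˢ s, (ZMod.stdAddChar (∑ j, h j * (v w.1 - v w.2) j) : ℂ) := by
  rw [← F_mul_conj, Complex.mul_conj, Complex.normSq_eq_norm_sq]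

/-- **Differences.** -/
theorem norm_sq_le {ι : Type} (s : Finset ι) (v : ι → Fin r → ZMod P) {h : Fin r → ZMod P}
    (hh : h ≠ 0) (l : ℝ) :
    ‖F s v h‖ ^ 2 ≤ ∑ d : Fin r → ZMod P, |(D s v d : ℝ) - l| := by
  classical
  have h1 : ((‖F s v h‖ ^ 2 : ℝ) : ℂ) = ∑ d : Fin r → ZMod P,
      ((D s v d : ℂ) - l) * (ZMod.stdAddChar (∑ j, h j * d j) : ℂ) := by
    have h2 : ∑ d : Fin r → ZMod P, ((D s v d : ℂ) - l) * (ZMod.stdAddChar (∑ j, h j * d j) : ℂ) =
        ∑ d : Fin r → ZMod P, (D s v d : ℂ) * (ZMod.stdAddChar (∑ j, h j * d j) : ℂ) := by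
      simp only [sub_mul]
      rw [sum_sub_distrib, ← mul_sum, orth' hh, mul_zero, sub_zero]
    rw [h2, norm_sq, ← sum_fiberwise (s ×ˢ s) (fun w => v w.1 - v w.2)]
    refine sum_congr rfl fun d _ => ?_
    rw [sum_congr rfl (g := fun _ => (ZMod.stdAddChar (∑ j, h j * d j) : ℂ)), sum_const,
      nsmul_eq_mul]
    · rfl
    · intro w hw
      rw [(mem_filter.1 hw).2]
  have h3 : ‖F s v h‖ ^ 2 = ‖((‖F s v h‖ ^ 2 : ℝ) : ℂ)‖ := by
    rw [Complex.norm_real, Real.norm_of_nonneg (by positivity)]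
  rw [h3, h1]
  refine (norm_sum_le _ _).trans (sum_le_sum fun d _ => ?_)
  rw [norm_mul, norm_char, mul_one]
  have h4 : ((D s v d : ℂ) - l) = (((D s v d : ℝ) - l : ℝ) : ℂ) := by push_cast; rfl
  rw [h4, Complex.norm_real, Real.norm_eq_abs]

/-- Parseval -/
theorem parseval {ι : Type} (s : Finset ι) (v : ι → Fin r → ZMod P) :
    ∑ h : Fin r → ZMod P, ‖F s v h‖ ^ 2 =
      (P : ℝ) ^ r * ((s ×ˢ s).filter fun w => v w.1 = v w.2).card := by
  classical
  have h1 : ((∑ h : Fin r → ZMod P, ‖F s v h‖ ^ 2 : ℝ) : ℂ) =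
      (((P : ℝ) ^ r * ((s ×ˢ s).filter fun w => v w.1 = v w.2).card : ℝ) : ℂ) := by
    push_cast
    have h2 : ∀ h : Fin r → ZMod P, ((‖F s v h‖ : ℂ)) ^ 2 =
        ∑ w ∈ s ×ˢ s, (ZMod.stdAddChar (∑ j, h j * (v w.1 - v w.2) j) : ℂ) := by
      intro h
      rw [← norm_sq]
      push_cast
      rfl
    rw [sum_congr rfl fun h _ => h2 h, sum_comm]
    have h3 : ∀ w ∈ s ×ˢ s, ∑ h : Fin r → ZMod P,
        (ZMod.stdAddChar (∑ j, h j * (v w.1 - v w.2) j) : ℂ) =
        if v w.1 = v w.2 then (P : ℂ) ^ r else 0 := by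
      intro w _
      rw [orth]
      simp only [sub_eq_zero]
    rw [sum_congr rfl h3, ← sum_filter, sum_const, nsmul_eq_mul, mul_comm]
  exact_mod_cast h1

/-- **Energies.** -/
theorem norm_pow_le {ι : Type} (s : Finset ι) (v : ι → Fin r → ZMod P) {h : Fin r → ZMod P}
    (hh : h ≠ 0) (k : ℕ) :
    ‖F s v h‖ ^ (2 * k) + (s.card : ℝ) ^ (2 * k) ≤
      (P : ℝ) ^ r * ((Fintype.piFinset (fun _ : Fin k => s) ×ˢ
        Fintype.piFinset (fun _ : Fin k => s)).filter
          fun w => ∑ t, v (w.1 t) = ∑ t, v (w.2 t)).card := by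
  classical
  set S : Finset (Fin k → ι) := Fintype.piFinset (fun _ : Fin k => s) with hS
  set u : (Fin k → ι) → Fin r → ZMod P := fun a => ∑ t, v (a t) with hu
  have h1 : ∀ g : Fin r → ZMod P, F S u g = F s v g ^ k := by
    intro g
    unfold F
    have h2 : (∑ i ∈ s, (ZMod.stdAddChar (∑ j, g j * v i j) : ℂ)) ^ k =
        ∏ _t : Fin k, ∑ i ∈ s, (ZMod.stdAddChar (∑ j, g j * v i j) : ℂ) := by
      rw [prod_const, card_univ, Fintype.card_fin]
    rw [h2, Finset.prod_univ_sum]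
    refine sum_congr rfl fun a _ => ?_
    rw [← char_sum]
    congr 1
    rw [sum_comm]
    refine sum_congr rfl fun j _ => ?_
    simp only [hu]
    rw [Finset.sum_apply, mul_sum]
  have h2 := parseval S u
  have h3 : ‖F S u h‖ ^ 2 + ‖F S u 0‖ ^ 2 ≤ ∑ g : Fin r → ZMod P, ‖F S u g‖ ^ 2 := by
    have h5 := sum_pair (f := fun g : Fin r → ZMod P => ‖F S u g‖ ^ 2) hh
    rw [← h5]
    exact sum_le_sum_of_subset_of_nonneg (subset_univ _) fun _ _ _ => by positivity
  rw [h2, h1, h1] at h3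
  have h4 : F s v (0 : Fin r → ZMod P) = s.card := by
    unfold F
    simp
  rw [h4, norm_pow, norm_pow, Complex.norm_natCast, ← pow_mul, ← pow_mul, mul_comm k 2] at h3
  exact h3

end Pool.Agent.U234.DS
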