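import Pool.Agent.U234.DS.Basic

/-! Difference sets and perfect nonlinear functions. -/

set_option autoImplicit false

namespace Pool.Agent.U234.DS

open Finset

variable {P : ℕ} [Fact P.Prime] {r : ℕ}

theorem sum_D {ι : Type} (s : Finset ι) (v : ι → Fin r → ZMod P) :
    ∑ d : Fin r → ZMod P, D s v d = s.card ^ 2 := by
  classical
  unfold D
  rw [← card_eq_sum_card_fiberwise (f := fun w : ι × ι => v w.1 - v w.2) (t := univ)
    (fun _ _ => mem_coe.2 (mem_univ _)), card_product, sq]

theorem D_zero (S : Finset (Fin r → ZMod P)) : D S (fun x => x) 0 = S.card := by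
  classical
  unfold D
  have h1 : ((S ×ˢ S).filter fun w => w.1 - w.2 = 0) = S.image fun x => (x, x) := by
    ext w
    simp only [mem_filter, mem_product, mem_image, sub_eq_zero]
    constructor
    · rintro ⟨⟨h1, h2⟩, h3⟩
      exact ⟨w.1, h1, Prod.ext rfl h3⟩
    · rintro ⟨x, hx, rfl⟩
      exact ⟨⟨hx, hx⟩, rfl⟩
  rw [h1, card_image_of_injective]
  intro x y hxy
  exact (Prod.mk.inj hxy).1

/-- Sets such that each nonzero vector is at most `l` times a difference. -/
theorem sum_abs_le (S : Finset (Fin r → ZMod P)) (l : ℕ)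
    (hl : ∀ d : Fin r → ZMod P, d ≠ 0 → D S (fun x => x) d ≤ l) :
    ∑ d : Fin r → ZMod P, |(D S (fun x => x) d : ℝ) - l| ≤
      2 * S.card + l * (P : ℝ) ^ r - (S.card : ℝ) ^ 2 := by
  classical
  have h1 : ∀ d : Fin r → ZMod P, |(D S (fun x => x) d : ℝ) - l| ≤
      (if d = 0 then (2 : ℝ) * S.card else 0) + (l - D S (fun x => x) d) := by
    intro d
    split_ifs with hd
    · subst hd
      rw [D_zero, abs_le]
      have h2 : (0 : ℝ) ≤ S.card := by positivity
      have h3 : (0 : ℝ) ≤ l := by positivity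
      constructor <;> linarith
    · have h2 : (D S (fun x => x) d : ℝ) ≤ l := by exact_mod_cast hl d hd
      rw [abs_of_nonpos (by linarith)]
      linarith
  refine (sum_le_sum fun d _ => h1 d).trans (le_of_eq ?_)
  rw [sum_add_distrib, sum_sub_distrib, sum_ite_eq' univ (0 : Fin r → ZMod P), if_pos (mem_univ _),
    sum_const, card_univ, nsmul_eq_mul, Fintype.card_fun, ZMod.card, Fintype.card_fin]
  have h3 : ∑ d : Fin r → ZMod P, (D S (fun x => x) d : ℝ) = (S.card : ℝ) ^ 2 := by
    exact_mod_cast sum_D S (fun x => x)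
  rw [h3]
  push_cast
  ring

/-- The number of the `y` with `f (y + a) - f y = b`. -/
noncomputable def Nf {m n : ℕ} (f : (Fin m → ZMod P) → (Fin n → ZMod P)) (a : Fin m → ZMod P)
    (b : Fin n → ZMod P) : ℕ :=
  (univ.filter fun y : Fin m → ZMod P => f (y + a) - f y = b).card

theorem D_append {m n : ℕ} (f : (Fin m → ZMod P) → (Fin n → ZMod P)) (a : Fin m → ZMod P)
    (b : Fin n → ZMod P) :
    D (univ : Finset (Fin m → ZMod P)) (fun x => Fin.append x (f x)) (Fin.append a b) =
      Nf f a b := by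
  classical
  unfold D Nf
  symm
  apply card_bij (fun y _ => (y + a, y))
  · intro y hy
    rw [mem_filter] at hy ⊢
    refine ⟨mem_product.2 ⟨mem_univ _, mem_univ _⟩, ?_⟩
    funext i
    refine Fin.addCases (fun i => ?_) (fun i => ?_) i
    · simp
    · simp only [Pi.sub_apply, Fin.append_right]
      rw [← hy.2]
      rfl
  · intro y _ y' _ h
    exact (Prod.mk.inj h).2
  · rintro ⟨x, y⟩ h
    rw [mem_filter] at h
    have h1 : x - y = a := by
      funext i
      have := congrFun h.2 (Fin.castAdd n i)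
      simpa using this
    have h2 : f x - f y = b := by
      funext i
      have := congrFun h.2 (Fin.natAdd m i)
      simpa using this
    have h3 : y + a = x := by rw [← h1]; abel
    refine ⟨y, ?_, by rw [h3]⟩
    rw [mem_filter]
    exact ⟨mem_univ _, by rw [h3]; exact h2⟩

theorem sum_append {m n : ℕ} (g : (Fin (m + n) → ZMod P) → ℝ) :
    ∑ d : Fin (m + n) → ZMod P, g d =
      ∑ a : Fin m → ZMod P, ∑ b : Fin n → ZMod P, g (Fin.append a b) := by
  rw [← Fintype.sum_prod_type']
  exact (Fintype.sum_equiv (Fin.appendEquiv m n) _ _ fun _ => rfl).symm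

theorem sum_Nf {m n : ℕ} (f : (Fin m → ZMod P) → (Fin n → ZMod P)) (a : Fin m → ZMod P) :
    ∑ b : Fin n → ZMod P, Nf f a b = P ^ m := by
  classical
  unfold Nf
  rw [← card_eq_sum_card_fiberwise (f := fun y : Fin m → ZMod P => f (y + a) - f y) (t := univ)
    (fun _ _ => mem_coe.2 (mem_univ _)), card_univ, Fintype.card_fun, ZMod.card, Fintype.card_fin]

/-- Perfect nonlinear functions. -/
theorem sum_abs_append {m n : ℕ} (f : (Fin m → ZMod P) → (Fin n → ZMod P))
    (hf : ∀ a : Fin m → ZMod P, a ≠ 0 → ∀ b, Nf f a b * P ^ n = P ^ m) :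
    ∑ d : Fin (m + n) → ZMod P,
      |(D (univ : Finset (Fin m → ZMod P)) (fun x => Fin.append x (f x)) d : ℝ) -
        (P : ℝ) ^ m / (P : ℝ) ^ n| ≤ 2 * (P : ℝ) ^ m := by
  classical
  have hP : (0 : ℝ) < P := by exact_mod_cast (Fact.out : P.Prime).pos
  rw [sum_append]
  simp only [D_append]
  have h1 : ∀ a : Fin m → ZMod P,
      ∑ b : Fin n → ZMod P, |(Nf f a b : ℝ) - (P : ℝ) ^ m / (P : ℝ) ^ n| ≤
        if a = 0 then 2 * (P : ℝ) ^ m else 0 := by
    intro a
    split_ifs with ha
    · have h2 : ∀ b : Fin n → ZMod P, |(Nf f a b : ℝ) - (P : ℝ) ^ m / (P : ℝ) ^ n| ≤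
          Nf f a b + (P : ℝ) ^ m / (P : ℝ) ^ n := by
        intro b
        have h3 : (0 : ℝ) ≤ Nf f a b := by positivity
        have h4 : (0 : ℝ) ≤ (P : ℝ) ^ m / (P : ℝ) ^ n := by positivity
        rw [abs_le]
        constructor <;> linarith
      refine (sum_le_sum fun b _ => h2 b).trans (le_of_eq ?_)
      rw [sum_add_distrib, sum_const, card_univ, nsmul_eq_mul, Fintype.card_fun, ZMod.card,
        Fintype.card_fin]
      have h5 : ∑ b : Fin n → ZMod P, (Nf f a b : ℝ) = (P : ℝ) ^ m := by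
        exact_mod_cast sum_Nf f a
      rw [h5]
      push_cast
      field_simp
      ring
    · apply le_of_eq
      apply sum_eq_zero
      intro b _
      have h2 : (Nf f a b : ℝ) * (P : ℝ) ^ n = (P : ℝ) ^ m := by exact_mod_cast hf a ha b
      rw [← h2, mul_div_assoc, div_self (by positivity), mul_one, sub_self, abs_zero]
  refine (sum_le_sum fun a _ => h1 a).trans (le_of_eq ?_)
  rw [sum_ite_eq' univ (0 : Fin m → ZMod P), if_pos (mem_univ _)]

end Pool.Agent.U234.DS
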