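import Pool.Agent.U234.DS.Comb
import Pool.Agent.N825.FC.Fin

/-! Record prime gaps and families of vectors modulo primes with nearly uniform differences. -/

set_option autoImplicit false

namespace Pool.Agent.U234.DS

open Finset Filter
open Pool.Agent.N825.FC (Many Many.mono crit)

theorem sq_rpow {P : ℕ} (hP : (0 : ℝ) < P) (x ε : ℝ) (k : ℕ) :
    (x * (P : ℝ) ^ (-ε)) ^ k = x ^ k * (P : ℝ) ^ (-(k * ε)) := by
  rw [mul_pow, ← Real.rpow_natCast ((P : ℝ) ^ (-ε)) k, ← Real.rpow_mul hP.le]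
  congr 2
  ring

/-- The criterion with the given constants. -/
def Crit (r : ℕ) (κ ε δ P₀ : ℝ) : Prop :=
  ∀ (P : ℕ) [Fact P.Prime], P₀ ≤ P →
    ∀ (ι : Type) (s : Finset ι) (v : ι → Fin r → ZMod P), s.Nonempty →
    (∀ h : Fin r → ZMod P, h ≠ 0 →
      ‖∑ i ∈ s, (ZMod.stdAddChar (∑ j, h j * v i j) : ℂ)‖ ≤ s.card * (P : ℝ) ^ (-ε)) →
    Many κ ε δ P s v

theorem Crit.mono {r : ℕ} {κ ε ε' δ P₀ : ℝ} (h : Crit r κ ε δ P₀) (hε : ε ≤ ε') :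
    Crit r κ ε' δ P₀ := by
  intro P _ hP ι s v hs hF
  have hP1 : (1 : ℝ) ≤ P := by exact_mod_cast (Fact.out : P.Prime).one_lt.le
  refine Many.mono hP1 hε (h P hP ι s v hs fun g hg => (hF g hg).trans ?_)
  exact mul_le_mul_of_nonneg_left
    (Real.rpow_le_rpow_of_exponent_le hP1 (by linarith)) (Nat.cast_nonneg _)

/-- **Differences.** -/
theorem diff_crit {r : ℕ} {κ ε δ P₀ : ℝ} (H : Crit r κ ε δ P₀)
    (P : ℕ) [Fact P.Prime] (hP : P₀ ≤ P)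
    (ι : Type) (s : Finset ι) (v : ι → Fin r → ZMod P) (hs : s.Nonempty) (l : ℝ)
    (hl : ∑ d : Fin r → ZMod P, |(D s v d : ℝ) - l| ≤ (s.card : ℝ) ^ 2 * (P : ℝ) ^ (-(2 * ε))) :
    Many κ ε δ P s v := by
  refine H P hP ι s v hs fun h hh => ?_
  have hP1 : (0 : ℝ) < P := by exact_mod_cast (Fact.out : P.Prime).pos
  have h1 := (norm_sq_le s v hh l).trans hl
  have h2 := sq_rpow hP1 (s.card : ℝ) ε 2
  have h3 : (s.card : ℝ) ^ 2 * (P : ℝ) ^ (-(2 * ε)) = (s.card * (P : ℝ) ^ (-ε)) ^ 2 := by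
    rw [h2]
    norm_num
  rw [h3] at h1
  exact (pow_le_pow_iff_left₀ (norm_nonneg _) (by positivity) two_ne_zero).1 h1

/-- **Energies.** -/
theorem energy_crit {r : ℕ} {κ ε δ P₀ : ℝ} (H : Crit r κ ε δ P₀)
    (P : ℕ) [Fact P.Prime] (hP : P₀ ≤ P)
    (ι : Type) (s : Finset ι) (v : ι → Fin r → ZMod P) (hs : s.Nonempty) (k : ℕ) (hk : 1 ≤ k)
    (hl : (P : ℝ) ^ r * ((Fintype.piFinset (fun _ : Fin k => s) ×ˢ
        Fintype.piFinset (fun _ : Fin k => s)).filter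
          fun w => ∑ t, v (w.1 t) = ∑ t, v (w.2 t)).card ≤
      (s.card : ℝ) ^ (2 * k) * (1 + (P : ℝ) ^ (-(2 * k * ε)))) :
    Many κ ε δ P s v := by
  refine H P hP ι s v hs fun h hh => ?_
  have hP1 : (0 : ℝ) < P := by exact_mod_cast (Fact.out : P.Prime).pos
  have h1 := (norm_pow_le s v hh k).trans hl
  have h2 := sq_rpow hP1 (s.card : ℝ) ε (2 * k)
  have h3 : ‖F s v h‖ ^ (2 * k) ≤ (s.card * (P : ℝ) ^ (-ε)) ^ (2 * k) := by
    rw [h2]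
    push_cast
    linarith
  exact (pow_le_pow_iff_left₀ (norm_nonneg _) (by positivity) (by omega)).1 h3

/-- **Sets with few representations of the differences.** -/
theorem set_crit (r : ℕ) (hr : 1 ≤ r) (ε : ℝ) (hε : 0 < ε) (hε1 : ε ≤ 1) {κ δ P₀ : ℝ}
    (hC : Crit r κ (ε / 8) δ P₀) :
    ∃ P₁ : ℝ, ∀ (P : ℕ) [Fact P.Prime], P₁ ≤ P →
    ∀ (S : Finset (Fin r → ZMod P)) (l : ℕ), 1 ≤ l →
    (∀ d : Fin r → ZMod P, d ≠ 0 → D S (fun x => x) d ≤ l) →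
    l * (P : ℝ) ^ r ≤ (S.card : ℝ) ^ 2 * (1 + (P : ℝ) ^ (-ε)) →
    Many κ ε δ P S (fun x => x) := by
  have H := diff_crit hC
  -- numerical conditions
  have e1 : ∀ᶠ P : ℕ in atTop, (P : ℝ) ^ (-(1 / 2 : ℝ)) * 8 ≤ (P : ℝ) ^ (-(1 / 4 : ℝ)) := by
    have h1 : Tendsto (fun P : ℕ => (P : ℝ) ^ (1 / 4 : ℝ)) atTop atTop :=
      (tendsto_rpow_atTop (by norm_num)).comp tendsto_natCast_atTop_atTop
    filter_upwards [h1.eventually_ge_atTop 8, eventually_gt_atTop 0] with P hP hP0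
    have hP' : (0 : ℝ) < P := by exact_mod_cast hP0
    calc (P : ℝ) ^ (-(1 / 2 : ℝ)) * 8 ≤ (P : ℝ) ^ (-(1 / 2 : ℝ)) * (P : ℝ) ^ (1 / 4 : ℝ) :=
          mul_le_mul_of_nonneg_left hP (by positivity)
      _ = (P : ℝ) ^ (-(1 / 4 : ℝ)) := by rw [← Real.rpow_add hP']; norm_num
  have e2 : ∀ᶠ P : ℕ in atTop, 2 * (P : ℝ) ^ (-ε) ≤ (P : ℝ) ^ (-(ε / 4)) := by
    have h1 : Tendsto (fun P : ℕ => (P : ℝ) ^ (3 * ε / 4)) atTop atTop :=
      (tendsto_rpow_atTop (by positivity)).comp tendsto_natCast_atTop_atTop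
    filter_upwards [h1.eventually_ge_atTop 2, eventually_gt_atTop 0] with P hP hP0
    have hP' : (0 : ℝ) < P := by exact_mod_cast hP0
    calc 2 * (P : ℝ) ^ (-ε) ≤ (P : ℝ) ^ (3 * ε / 4) * (P : ℝ) ^ (-ε) :=
          mul_le_mul_of_nonneg_right hP (by positivity)
      _ = (P : ℝ) ^ (-(ε / 4)) := by rw [← Real.rpow_add hP']; congr 1; ring
  obtain ⟨N, hN⟩ := eventually_atTop.1 (e1.and e2)
  refine ⟨max P₀ N, fun P _ hP S l hl hD hS => ?_⟩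
  have hP0 : P₀ ≤ P := (le_max_left _ _).trans hP
  have hPN : N ≤ P := by exact_mod_cast (le_max_right P₀ (N : ℝ)).trans hP
  obtain ⟨n1, n2⟩ := hN P hPN
  have hPr : (0 : ℝ) < P := by exact_mod_cast (Fact.out : P.Prime).pos
  have hP1 : (1 : ℝ) ≤ P := by exact_mod_cast (Fact.out : P.Prime).one_lt.le
  have hl' : (1 : ℝ) ≤ l := by exact_mod_cast hl
  have hε' : (P : ℝ) ^ (-ε) ≤ 1 := Real.rpow_le_one_of_one_le_of_nonpos hP1 (by linarith)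
  have hpr : (P : ℝ) ≤ (P : ℝ) ^ r := le_self_pow₀ hP1 (by omega)
  -- the set is large
  have hcard : (P : ℝ) ≤ 2 * (S.card : ℝ) ^ 2 := by
    have h1 : (P : ℝ) ^ r ≤ l * (P : ℝ) ^ r := le_mul_of_one_le_left (by positivity) hl'
    have h2 : (S.card : ℝ) ^ 2 * (1 + (P : ℝ) ^ (-ε)) ≤ (S.card : ℝ) ^ 2 * 2 :=
      mul_le_mul_of_nonneg_left (by linarith) (by positivity)
    linarith
  have hne : S.Nonempty := by
    by_contra hcon
    rw [not_nonempty_iff_eq_empty] at hcon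
    rw [hcon] at hcard
    simp at hcard
    exact (Fact.out : P.Prime).ne_zero hcard
  have hc0 : (0 : ℝ) < S.card := by exact_mod_cast hne.card_pos
  refine Many.mono hP1 (by linarith : ε / 8 ≤ ε) (H P hP0 _ S (fun x => x) hne (l : ℝ) ?_)
  refine (sum_abs_le S l hD).trans ?_
  have h3 : (P : ℝ) ^ (-(2 * (ε / 8))) = (P : ℝ) ^ (-(ε / 4)) := by congr 1; ring
  rw [h3]
  -- `2 |S| ≤ |S|² P ^ (-1/4) / 2`
  have h4 : (P : ℝ) ^ (1 / 2 : ℝ) ≤ 2 * S.card := by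
    have h5 : ((P : ℝ) ^ (1 / 2 : ℝ)) ^ 2 ≤ (2 * (S.card : ℝ)) ^ 2 := by
      rw [← Real.rpow_natCast, ← Real.rpow_mul hPr.le]
      norm_num
      nlinarith
    exact (pow_le_pow_iff_left₀ (by positivity) (by positivity) two_ne_zero).1 h5
  have h6 : (1 : ℝ) ≤ 2 * S.card * (P : ℝ) ^ (-(1 / 2 : ℝ)) := by
    calc (1 : ℝ) = (P : ℝ) ^ (1 / 2 : ℝ) * (P : ℝ) ^ (-(1 / 2 : ℝ)) := by
          rw [← Real.rpow_add hPr]; norm_num
      _ ≤ _ := mul_le_mul_of_nonneg_right h4 (by positivity)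
  have h7 : (P : ℝ) ^ (-(1 / 4 : ℝ)) ≤ (P : ℝ) ^ (-(ε / 4)) :=
    Real.rpow_le_rpow_of_exponent_le hP1 (by linarith)
  have h8 : 2 * (S.card : ℝ) ≤ (S.card : ℝ) ^ 2 * ((P : ℝ) ^ (-(ε / 4)) / 2) := by
    calc 2 * (S.card : ℝ) ≤ 2 * (S.card : ℝ) * (2 * S.card * (P : ℝ) ^ (-(1 / 2 : ℝ))) :=
          le_mul_of_one_le_right (by positivity) h6
      _ = (S.card : ℝ) ^ 2 * ((P : ℝ) ^ (-(1 / 2 : ℝ)) * 8 / 2) := by ring
      _ ≤ (S.card : ℝ) ^ 2 * ((P : ℝ) ^ (-(ε / 4)) / 2) := by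
          apply mul_le_mul_of_nonneg_left _ (by positivity)
          linarith
  have h9 : (S.card : ℝ) ^ 2 * (P : ℝ) ^ (-ε) ≤ (S.card : ℝ) ^ 2 * ((P : ℝ) ^ (-(ε / 4)) / 2) :=
    mul_le_mul_of_nonneg_left (by linarith) (by positivity)
  nlinarith

/-- **Difference sets.** -/
theorem difference_sets (r : ℕ) (hr : 1 ≤ r) (ε : ℝ) (hε : 0 < ε) (hε1 : ε ≤ 1) {κ δ P₀ : ℝ}
    (hC : Crit r κ (ε / 8) δ P₀) :
    ∃ P₁ : ℝ, ∀ (P : ℕ) [Fact P.Prime], P₁ ≤ P →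
    ∀ (S : Finset (Fin r → ZMod P)) (l : ℕ), 1 ≤ l →
    (∀ d : Fin r → ZMod P, d ≠ 0 → D S (fun x => x) d = l) →
    Many κ ε δ P S (fun x => x) := by
  obtain ⟨P₁, H⟩ := set_crit r hr ε hε hε1 hC
  refine ⟨P₁, fun P _ hP S l hl hD => H P hP S l hl (fun d hd => (hD d hd).le) ?_⟩
  classical
  have hPr : (0 : ℝ) < P := by exact_mod_cast (Fact.out : P.Prime).pos
  -- `l (P ^ r - 1) = |S|² - |S|`
  have h1 : ∑ d : Fin r → ZMod P, (D S (fun x => x) d : ℝ) = (S.card : ℝ) ^ 2 := by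
    exact_mod_cast sum_D S (fun x => x)
  have h2 : ∑ d : Fin r → ZMod P, (D S (fun x => x) d : ℝ) =
      S.card - l + l * (P : ℝ) ^ r := by
    have h3 : ∀ d : Fin r → ZMod P, (D S (fun x => x) d : ℝ) =
        (if d = 0 then (S.card : ℝ) - l else 0) + l := by
      intro d
      split_ifs with hd
      · subst hd
        rw [D_zero]
        ring
      · rw [hD d hd]
        ring
    rw [sum_congr rfl fun d _ => h3 d, sum_add_distrib,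
      sum_ite_eq' univ (0 : Fin r → ZMod P), if_pos (mem_univ _), sum_const, card_univ,
      nsmul_eq_mul, Fintype.card_fun, ZMod.card, Fintype.card_fin]
    push_cast
    ring
  -- `l ≤ |S|`
  have h4 : l ≤ S.card := by
    obtain ⟨d, hd⟩ : ∃ d : Fin r → ZMod P, d ≠ 0 := by
      refine ⟨fun _ => 1, fun h => ?_⟩
      have := congrFun h ⟨0, hr⟩
      exact one_ne_zero this
    rw [← hD d hd]
    unfold D
    refine card_le_card_of_injOn (fun w => w.1) (fun w hw => ?_) (fun w hw w' hw' h => ?_)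
    · exact (mem_product.1 (mem_filter.1 hw).1).1
    · have e1 := (mem_filter.1 hw).2
      have e2 := (mem_filter.1 hw').2
      simp only at e1 e2 h
      refine Prod.ext h ?_
      have : w.1 - w.2 = w.1 - w'.2 := by rw [e1, ← e2, h]
      exact sub_right_injective this
  have h5 : (l : ℝ) ≤ S.card := by exact_mod_cast h4
  have h6 : l * (P : ℝ) ^ r ≤ (S.card : ℝ) ^ 2 := by linarith
  have h7 : (0 : ℝ) ≤ (S.card : ℝ) ^ 2 * (P : ℝ) ^ (-ε) := by positivity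
  linarith

/-- The four criteria with the same constants. -/
theorem all (r : ℕ) (hr : 1 ≤ r) (ε : ℝ) (hε : 0 < ε) (hε1 : ε ≤ 1) :
    ∃ κ : ℝ, 0 < κ ∧ ∃ δ : ℝ, 0 < δ ∧ ∃ P₀ : ℝ, ∀ (P : ℕ) [Fact P.Prime], P₀ ≤ P →
    (∀ (ι : Type) (s : Finset ι) (v : ι → Fin r → ZMod P), s.Nonempty → ∀ l : ℝ,
      ∑ d : Fin r → ZMod P, |(D s v d : ℝ) - l| ≤ (s.card : ℝ) ^ 2 * (P : ℝ) ^ (-(2 * ε)) →
      Many κ ε δ P s v) ∧
    (∀ (ι : Type) (s : Finset ι) (v : ι → Fin r → ZMod P), s.Nonempty → ∀ k : ℕ, 1 ≤ k →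
      (P : ℝ) ^ r * ((Fintype.piFinset (fun _ : Fin k => s) ×ˢ
          Fintype.piFinset (fun _ : Fin k => s)).filter
            fun w => ∑ t, v (w.1 t) = ∑ t, v (w.2 t)).card ≤
        (s.card : ℝ) ^ (2 * k) * (1 + (P : ℝ) ^ (-(2 * k * ε))) →
      Many κ ε δ P s v) ∧
    (∀ (S : Finset (Fin r → ZMod P)) (l : ℕ), 1 ≤ l →
      (∀ d : Fin r → ZMod P, d ≠ 0 → D S (fun x => x) d ≤ l) →
      l * (P : ℝ) ^ r ≤ (S.card : ℝ) ^ 2 * (1 + (P : ℝ) ^ (-ε)) →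
      Many κ ε δ P S (fun x => x)) ∧
    (∀ (S : Finset (Fin r → ZMod P)) (l : ℕ), 1 ≤ l →
      (∀ d : Fin r → ZMod P, d ≠ 0 → D S (fun x => x) d = l) →
      Many κ ε δ P S (fun x => x)) := by
  obtain ⟨κ, hκ, δ, hδ, P₀, hC⟩ := crit r hr (ε / 8) (by positivity) (by linarith)
  have hC' : Crit r κ ε δ P₀ := Crit.mono hC (by linarith)
  obtain ⟨P₁, h1⟩ := set_crit r hr ε hε hε1 hC
  obtain ⟨P₂, h2⟩ := difference_sets r hr ε hε hε1 hC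
  refine ⟨κ, hκ, δ, hδ, max P₀ (max P₁ P₂), fun P _ hP => ⟨?_, ?_, ?_, ?_⟩⟩
  · exact diff_crit hC' P ((le_max_left _ _).trans hP)
  · exact energy_crit hC' P ((le_max_left _ _).trans hP)
  · exact h1 P (((le_max_left _ _).trans (le_max_right _ _)).trans hP)
  · exact h2 P (((le_max_right _ _).trans (le_max_right _ _)).trans hP)

/-- **Perfect nonlinear functions.** -/
theorem nonlinear (m n : ℕ) (hm : 1 ≤ m) (ε : ℝ) (hε : 0 < ε) (hε1 : ε ≤ 1) :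
    ∃ κ : ℝ, 0 < κ ∧ ∃ δ : ℝ, 0 < δ ∧ ∃ P₀ : ℝ, ∀ (P : ℕ) [Fact P.Prime], P₀ ≤ P →
    ∀ f : (Fin m → ZMod P) → (Fin n → ZMod P),
    (∀ a : Fin m → ZMod P, a ≠ 0 → ∀ b, Nf f a b * P ^ n = P ^ m) →
    Many κ ε δ P univ (fun x => Fin.append x (f x)) := by
  obtain ⟨κ, hκ, δ, hδ, P₀, H0⟩ := crit (m + n) (by omega) (ε / 4) (by positivity)
    (by linarith)
  have H := diff_crit H0
  refine ⟨κ, hκ, δ, hδ, max P₀ 4, fun P _ hP f hf => ?_⟩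
  have hP0 : P₀ ≤ P := (le_max_left _ _).trans hP
  have hP4 : (4 : ℝ) ≤ P := (le_max_right _ _).trans hP
  have hPr : (0 : ℝ) < P := by linarith
  have hP1 : (1 : ℝ) ≤ P := by linarith
  refine Many.mono hP1 (by linarith : ε / 4 ≤ ε) (H P hP0 _ univ _ univ_nonempty _
    ((sum_abs_append f hf).trans ?_))
  rw [card_univ, Fintype.card_fun, ZMod.card, Fintype.card_fin]
  push_cast
  have h1 : (P : ℝ) ^ (-(1 / 2 : ℝ)) ≤ (P : ℝ) ^ (-(2 * (ε / 4))) :=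
    Real.rpow_le_rpow_of_exponent_le hP1 (by linarith)
  have h2 : (2 : ℝ) ≤ (P : ℝ) ^ (1 / 2 : ℝ) := by
    have h3 : (2 : ℝ) = (4 : ℝ) ^ (1 / 2 : ℝ) := by
      rw [← Real.sqrt_eq_rpow, show (4 : ℝ) = 2 ^ 2 by norm_num, Real.sqrt_sq (by norm_num)]
    exact h3.le.trans (Real.rpow_le_rpow (by norm_num) hP4 (by norm_num))
  have h4 : (P : ℝ) ≤ (P : ℝ) ^ m := le_self_pow₀ hP1 (by omega)
  calc 2 * (P : ℝ) ^ m ≤ (P : ℝ) ^ (1 / 2 : ℝ) * (P : ℝ) ^ m :=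
        mul_le_mul_of_nonneg_right h2 (by positivity)
    _ = (P : ℝ) ^ m * P * (P : ℝ) ^ (-(1 / 2 : ℝ)) := by
        have h5 : (P : ℝ) ^ (1 / 2 : ℝ) = P * (P : ℝ) ^ (-(1 / 2 : ℝ)) := by
          nth_rw 2 [← Real.rpow_one (P : ℝ)]
          rw [← Real.rpow_add hPr]
          norm_num
        rw [h5]
        ring
    _ ≤ ((P : ℝ) ^ m) ^ 2 * (P : ℝ) ^ (-(2 * (ε / 4))) := by
        rw [sq]
        gcongr

end Pool.Agent.U234.DS
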